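import Pool.Agent.H73.KG.Stmts2

/-!
# Project KG, module THB: the operator norm of the covariance along the channel
-/

set_option autoImplicit false

open MeasureTheory Set Filter Topology

namespace Pool.Agent.H99.KG.THB

/-- the smallness of the exponent -/
theorem num1 {C A1 A2 s : ℝ} (hC : 1 ≤ C) (hA1 : 2 ≤ A1) (hA2 : 1 ≤ A2) (hlog : Real.log A1 = A2)
    (hs : 0 < s) (hsc : s ≤ (1 / (500000 * C)) ^ 2 / (A1 * A2)) {p : ℝ}
    (hp : p ≤ 10 * (A1 + Real.log (1 / s)) + 1) :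
    s ≤ 1 / 2 ∧ 0 ≤ Real.log (1 / s) ∧
    9 / 2 * (p + 1) * (C * (s + Real.negMulLog s + s * A2)) ≤ 1 / 100 := by
  have hA1p : 0 < A1 := by linarith
  have hA2p : 0 < A2 := by linarith
  have hAA : 1 ≤ A1 * A2 := by nlinarith
  have hAAp : 0 < A1 * A2 := by positivity
  have hc1 : 1 / (500000 * C) ≤ 1 / 500000 := by
    apply one_div_le_one_div_of_le (by norm_num)
    linarith
  have hc0 : 0 < 1 / (500000 * C) := by positivity
  set u := s * (A1 * A2) with hu
  have hup : 0 < u := by positivity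
  have huc : u ≤ (1 / (500000 * C)) ^ 2 := by
    rw [le_div_iff₀ hAAp] at hsc
    exact hsc
  have hu1 : u ≤ 1 / 2 := by nlinarith
  have hsu : s ≤ u := by
    rw [hu]
    nlinarith
  have hs2 : s ≤ 1 / 2 := hsu.trans hu1
  have hl0 : 0 ≤ Real.log (1 / s) := by
    apply Real.log_nonneg
    rw [le_div_iff₀ hs]
    linarith
  refine ⟨hs2, hl0, ?_⟩
  have hnl : Real.negMulLog s = s * Real.log (1 / s) := by
    rw [Real.negMulLog, one_div, Real.log_inv]
    ring
  rw [hnl]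
  set l := Real.log (1 / s) with hl
  set q := Real.sqrt (Real.sqrt u) with hq
  have hqp : 0 < q := Real.sqrt_pos.2 (Real.sqrt_pos.2 hup)
  have hq2 : q ^ 2 = Real.sqrt u := Real.sq_sqrt (Real.sqrt_nonneg _)
  have hq4 : q ^ 4 = u := by
    have : q ^ 4 = (q ^ 2) ^ 2 := by ring
    rw [this, hq2, Real.sq_sqrt hup.le]
  have hsu' : Real.sqrt u ≤ 1 / (500000 * C) := by
    rw [← Real.sqrt_sq hc0.le]
    exact Real.sqrt_le_sqrt huc
  have hq1 : q ≤ 1 := by
    by_contra hcon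
    push Not at hcon
    have : 1 < q ^ 2 := by nlinarith
    rw [hq2] at this
    linarith
  have hlle : l ≤ 2 * A2 + 4 / q := by
    have h1 : 1 / s = A1 * A2 * (1 / q) ^ 4 := by
      have h2 : s = u / (A1 * A2) := by
        rw [hu]
        field_simp
      rw [h2, ← hq4]
      field_simp
    have h3 : Real.log A2 ≤ A2 := (Real.log_le_sub_one_of_pos hA2p).trans (by linarith)
    have h4 : Real.log (1 / q) ≤ 1 / q :=
      (Real.log_le_sub_one_of_pos (by positivity)).trans (by linarith)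
    rw [hl, h1, Real.log_mul (by positivity) (by positivity),
      Real.log_mul (by positivity) (by positivity), Real.log_pow, hlog]
    push_cast
    have h5 : 4 / q = 4 * (1 / q) := by ring
    rw [h5]
    linarith
  set v := 1 / q with hv
  have hv1 : 1 ≤ v := by
    rw [hv, le_div_iff₀ hqp]
    linarith
  have hlv : l ≤ 2 * A2 + 4 * v := by
    have h5 : 4 / q = 4 * v := by rw [hv]; ring
    rw [← h5]
    exact hlle
  have hA21 : A2 ≤ A1 := by
    rw [← hlog]
    exact (Real.log_le_sub_one_of_pos hA1p).trans (by linarith)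
  have e1 : A1 + l ≤ 7 * A1 * v := by nlinarith [mul_nonneg hA1p.le (by linarith : (0:ℝ) ≤ v - 1)]
  have e2 : A2 + l ≤ 7 * A2 * v := by nlinarith [mul_nonneg hA2p.le (by linarith : (0:ℝ) ≤ v - 1)]
  have e3 : s * (A1 + l) * (A2 + l) ≤ 49 * Real.sqrt u := by
    have h1 : (A1 + l) * (A2 + l) ≤ (7 * A1 * v) * (7 * A2 * v) :=
      mul_le_mul e1 e2 (by positivity) (by positivity)
    have h2 : s * (A1 + l) * (A2 + l) ≤ s * ((7 * A1 * v) * (7 * A2 * v)) := by
      rw [mul_assoc]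
      exact mul_le_mul_of_nonneg_left h1 hs.le
    have h3 : s * ((7 * A1 * v) * (7 * A2 * v)) = 49 * (u * v ^ 2) := by
      rw [hu]
      ring
    have h4 : u * v ^ 2 = Real.sqrt u := by
      have h5 : u * v ^ 2 = q ^ 4 * (1 / q) ^ 2 := by rw [hq4]
      rw [h5, ← hq2]
      field_simp
    rw [h3, h4] at h2
    exact h2
  have e4 : p + 1 ≤ 11 * (A1 + l) := by linarith
  have e5 : C * (s + s * l + s * A2) ≤ 2 * C * (s * (A2 + l)) := by
    have h0 : 0 ≤ s * l := mul_nonneg hs.le hl0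
    have h00 : 0 ≤ s * (A2 - 1) := mul_nonneg hs.le (by linarith)
    have h1 : s + s * l + s * A2 ≤ 2 * (s * (A2 + l)) := by
      linarith
    have h2 := mul_le_mul_of_nonneg_left h1 (by linarith : (0:ℝ) ≤ C)
    linarith
  have e5' : 0 ≤ C * (s + s * l + s * A2) := by positivity
  calc 9 / 2 * (p + 1) * (C * (s + s * l + s * A2))
      ≤ 9 / 2 * (11 * (A1 + l)) * (2 * C * (s * (A2 + l))) := by
        apply mul_le_mul _ e5 e5' (by positivity)
        linarith
    _ = 99 * C * (s * (A1 + l) * (A2 + l)) := by ring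
    _ ≤ 99 * C * (49 * (1 / (500000 * C))) := by
        apply mul_le_mul_of_nonneg_left _ (by positivity)
        linarith
    _ = 4851 / 500000 := by
        field_simp
        norm_num
    _ ≤ 1 / 100 := by norm_num

/-- the pointwise inequality -/
theorem num2 {x M : ℝ} (hx : 0 ≤ x) (hM : Real.sqrt x ≤ M) :
    (3 + x) ^ ((3:ℝ) / 2) ≤ 7.35 + 1.42 * M * x := by
  have h3 : (3 + x) ^ ((3:ℝ) / 2) = (3 + x) * Real.sqrt (3 + x) := by
    rw [show (3:ℝ) / 2 = 1 + 1 / 2 by norm_num, Real.rpow_add (by linarith), Real.rpow_one,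
      Real.sqrt_eq_rpow]
  rw [h3]
  set y := Real.sqrt x with hy
  have hy0 : 0 ≤ y := Real.sqrt_nonneg _
  have hxy : x = y ^ 2 := (Real.sq_sqrt hx).symm
  have h4 : (3 + x) * Real.sqrt (3 + x) ≤ 7.35 + 1.42 * y ^ 3 := by
    have h5 : 0 ≤ 7.35 + 1.42 * y ^ 3 := by positivity
    have h6 : (3 + x) * Real.sqrt (3 + x) = Real.sqrt ((3 + x) ^ 3) := by
      rw [show (3 + x) ^ 3 = (3 + x) ^ 2 * (3 + x) by ring, Real.sqrt_mul (by positivity),
        Real.sqrt_sq (by positivity)]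
    rw [h6]
    apply Real.sqrt_le_iff.2 ⟨h5, ?_⟩
    rw [hxy]
    nlinarith [sq_nonneg (y ^ 3 - 5.2), sq_nonneg (y ^ 2 - 3), sq_nonneg (y - 1.732), hy0,
      mul_nonneg hy0 (sq_nonneg (y - 1.732)), mul_nonneg (mul_nonneg hy0 hy0) (sq_nonneg (y - 1.732)),
      mul_nonneg (mul_nonneg (mul_nonneg hy0 hy0) hy0) (sq_nonneg (y - 1.732)),
      mul_nonneg (mul_nonneg (mul_nonneg (mul_nonneg hy0 hy0) hy0) hy0) (sq_nonneg (y - 1.732))]
  refine h4.trans ?_
  have h7 : y ^ 3 ≤ M * x := by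
    rw [hxy]
    nlinarith [sq_nonneg y, mul_nonneg (sq_nonneg y) (by linarith : (0:ℝ) ≤ M - y)]
  nlinarith

/-- the final bound -/
theorem num3 {A1 l s n : ℝ} (hA1 : 2 ≤ A1) (hs : 0 < s) (hl : l = Real.log (1 / s)) (hl0 : 0 ≤ l)
    (hn : 0 ≤ n) (hnA : n ≤ Real.exp A1) (p : ℕ) (hp : 10 * (A1 + l) ≤ p) :
    1.42 * Real.sqrt ((4 / 3) ^ p * (n / s)) * ((4 / 3) ^ p *
      ((n * (1 / 2) ^ p + n * (1 / 3) ^ p) * Real.exp (p / 100))) ≤ 2.6 := by
  have a1 : (4:ℝ) / 3 ≤ Real.exp 0.32 := by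
    have h1 := Real.add_one_le_exp (0.16:ℝ)
    have h2 : Real.exp 0.32 = Real.exp 0.16 ^ 2 := by
      rw [← Real.exp_nat_mul]; norm_num
    rw [h2]
    nlinarith
  have a2 : (2:ℝ) / 3 ≤ Real.exp (-0.35) := by
    have h1 := Real.add_one_le_exp (-0.175:ℝ)
    have h2 : Real.exp (-0.35) = Real.exp (-0.175) ^ 2 := by
      rw [← Real.exp_nat_mul]; norm_num
    rw [h2]
    nlinarith
  have a3 : ((4:ℝ) / 3) ^ p ≤ Real.exp (0.32 * p) := by
    calc ((4:ℝ) / 3) ^ p ≤ (Real.exp 0.32) ^ p := pow_le_pow_left₀ (by norm_num) a1 p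
      _ = Real.exp (0.32 * p) := by rw [← Real.exp_nat_mul]; ring_nf
  have a4 : ((2:ℝ) / 3) ^ p ≤ Real.exp (-0.35 * p) := by
    calc ((2:ℝ) / 3) ^ p ≤ (Real.exp (-0.35)) ^ p := pow_le_pow_left₀ (by norm_num) a2 p
      _ = Real.exp (-0.35 * p) := by rw [← Real.exp_nat_mul]; ring_nf
  have hsl : 1 / s = Real.exp l := by
    rw [hl, Real.exp_log (by positivity)]
  have a5 : Real.sqrt ((4 / 3) ^ p * (n / s)) ≤ Real.exp ((0.32 * p + A1 + l) / 2) := by
    have h1 : Real.exp ((0.32 * p + A1 + l) / 2) = Real.sqrt (Real.exp (0.32 * p + A1 + l)) := by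
      rw [Real.exp_half]
    rw [h1]
    apply Real.sqrt_le_sqrt
    have h2 : (4 / 3) ^ p * (n / s) = (4 / 3) ^ p * (n * (1 / s)) := by ring
    rw [h2, hsl, show (0.32 * p + A1 + l : ℝ) = 0.32 * p + (A1 + l) by ring, Real.exp_add,
      Real.exp_add]
    apply mul_le_mul a3 _ (by positivity) (Real.exp_nonneg _)
    exact mul_le_mul_of_nonneg_right hnA (Real.exp_nonneg _)
  have a6 : (4 / 3) ^ p * ((n * (1 / 2) ^ p + n * (1 / 3) ^ p) * Real.exp (p / 100)) ≤
      2 * (Real.exp (-0.35 * p) * Real.exp A1 * Real.exp (p / 100)) := by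
    have h1 : ((1:ℝ) / 3) ^ p ≤ (1 / 2) ^ p := pow_le_pow_left₀ (by norm_num) (by norm_num) p
    have h2 : (4 / 3 : ℝ) ^ p * (1 / 2) ^ p = (2 / 3) ^ p := by
      rw [← mul_pow]; norm_num
    have h3 : (4 / 3) ^ p * ((n * (1 / 2) ^ p + n * (1 / 3) ^ p) * Real.exp (p / 100)) ≤
        (4 / 3) ^ p * ((n * (1 / 2) ^ p + n * (1 / 2) ^ p) * Real.exp (p / 100)) := by
      apply mul_le_mul_of_nonneg_left _ (by positivity)
      apply mul_le_mul_of_nonneg_right _ (Real.exp_nonneg _)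
      have := mul_le_mul_of_nonneg_left h1 hn
      linarith
    refine h3.trans ?_
    have h4 : (4 / 3) ^ p * ((n * (1 / 2) ^ p + n * (1 / 2) ^ p) * Real.exp (p / 100)) =
        2 * (((4 / 3 : ℝ) ^ p * (1 / 2) ^ p) * n * Real.exp (p / 100)) := by ring
    rw [h4, h2]
    apply mul_le_mul_of_nonneg_left _ (by norm_num)
    apply mul_le_mul_of_nonneg_right _ (Real.exp_nonneg _)
    exact mul_le_mul a4 hnA hn (Real.exp_nonneg _)
  have a7 : 1.42 * Real.sqrt ((4 / 3) ^ p * (n / s)) * ((4 / 3) ^ p *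
      ((n * (1 / 2) ^ p + n * (1 / 3) ^ p) * Real.exp (p / 100))) ≤
      1.42 * Real.exp ((0.32 * p + A1 + l) / 2) *
        (2 * (Real.exp (-0.35 * p) * Real.exp A1 * Real.exp (p / 100))) := by
    apply mul_le_mul _ a6 (by positivity) (by positivity)
    linarith
  refine a7.trans ?_
  have a8 : 1.42 * Real.exp ((0.32 * p + A1 + l) / 2) *
        (2 * (Real.exp (-0.35 * p) * Real.exp A1 * Real.exp (p / 100))) =
      2.84 * Real.exp ((0.32 * p + A1 + l) / 2 + (-0.35 * p + A1 + p / 100)) := by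
    rw [Real.exp_add, Real.exp_add (-0.35 * (p:ℝ) + A1), Real.exp_add (-0.35 * (p:ℝ))]
    ring
  rw [a8]
  have a9 : (0.32 * (p:ℝ) + A1 + l) / 2 + (-0.35 * p + A1 + p / 100) ≤ -0.3 := by
    linarith
  have a10 : Real.exp ((0.32 * (p:ℝ) + A1 + l) / 2 + (-0.35 * p + A1 + p / 100)) ≤
      Real.exp (-0.3) := Real.exp_le_exp.2 a9
  have a11 : Real.exp (-0.3) ≤ 0.77 := by
    rw [Real.exp_neg]
    have h1 := Real.add_one_le_exp (0.3:ℝ)
    have h2 : (Real.exp 0.3)⁻¹ ≤ (1.3:ℝ)⁻¹ := by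
      apply inv_anti₀ (by norm_num)
      linarith
    refine h2.trans ?_
    norm_num
  linarith

end Pool.Agent.H99.KG.THB

namespace Pool.Agent.H73.KG

open Pool.Agent.H84 Pool.Agent.H84.Sym Pool.Agent.H84.Sym.P2x Pool.Agent.H19.KL

theorem L1_ge (n : ℕ) : Real.exp 1 ≤ L1 n ∧ 2 ≤ L1 n := by
  have h1 : Real.log 16 ≤ L1 n := by
    unfold L1
    apply Real.log_le_log (by norm_num)
    have : (0:ℝ) ≤ n := Nat.cast_nonneg n
    linarith
  have h2 : Real.log 16 = 4 * Real.log 2 := by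
    rw [show (16:ℝ) = 2 ^ 4 by norm_num, Real.log_pow]
    norm_num
  have h3 := Real.log_two_gt_d9
  have h4 := Real.exp_one_lt_d9
  constructor <;> linarith

theorem L2_ge (n : ℕ) : 1 ≤ L2 n := by
  have h := (L1_ge n).1
  unfold L2
  rw [Real.le_log_iff_exp_le (by linarith [(L1_ge n).2])]
  exact h

theorem thb_thm
    (hBAS : ∀ (E : Type) [NormedAddCommGroup E] [InnerProductSpace ℝ E]
      [FiniteDimensional ℝ E] [MeasurableSpace E] [BorelSpace E], BASStmt E)
    (hPWB : ∀ (E : Type) [NormedAddCommGroup E] [InnerProductSpace ℝ E]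
      [FiniteDimensional ℝ E] [MeasurableSpace E] [BorelSpace E], PWBStmt E)
    (hRGC : ∀ (E : Type) [NormedAddCommGroup E] [InnerProductSpace ℝ E]
      [FiniteDimensional ℝ E] [MeasurableSpace E] [BorelSpace E], RGCStmt E)
    (hBAY : ∀ (E : Type) [NormedAddCommGroup E] [InnerProductSpace ℝ E]
      [FiniteDimensional ℝ E] [MeasurableSpace E] [BorelSpace E], BAYStmt E)
    (hFPI : FPIStmt)
    (hFPB : ∀ (E : Type) [NormedAddCommGroup E] [InnerProductSpace ℝ E]
      [FiniteDimensional ℝ E] [MeasurableSpace E] [BorelSpace E], FPBStmt E)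
    (hTRP : ∀ (E : Type) [NormedAddCommGroup E] [InnerProductSpace ℝ E]
      [FiniteDimensional ℝ E] [MeasurableSpace E] [BorelSpace E], TRPStmt E)
    (hTKL : TKLStmt) : THBStmt := by
  obtain ⟨C, hC, hTK⟩ := hTKL
  have hc0 : 0 < 1 / (500000 * C) := by positivity
  have hc1 : 1 / (500000 * C) ≤ 1 / 500000 := by
    apply one_div_le_one_div_of_le (by norm_num)
    linarith
  refine ⟨(1 / (500000 * C)) ^ 2, by positivity, by nlinarith, ?_⟩
  intro E _ _ _ _ _ U t hU hcov ι _ _ b s hs hsc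
  obtain ⟨hb1, hb2, hb3, hb4, hb5, hb6, hb7⟩ := hBAS E
  obtain ⟨hp1, hp2, hp3⟩ := hPWB E U t hU
  obtain ⟨hr1, hr2, hr3, hr4, hr5, hr6, hr7⟩ := hRGC E
  have ht : 0 < t := by
    obtain ⟨⟨C', hC'⟩, _⟩ := hU
    exact hC'.pos
  set N := Module.finrank ℝ E with hN
  have hcard : (Fintype.card ι : ℝ) = N := by
    have := Module.finrank_eq_card_basis b.toBasis
    rw [← this]
  set A1 := L1 N with hA1
  set A2 := L2 N with hA2
  have hA1' : 2 ≤ A1 := (L1_ge N).2
  have hA2' : 1 ≤ A2 := L2_ge N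
  have hlog : Real.log A1 = A2 := rfl
  have hN0 : (0:ℝ) ≤ N := Nat.cast_nonneg N
  set l := Real.log (1 / s) with hl
  have hsmall : s ≤ 1 / 2 ∧ 0 ≤ l :=
    ⟨(Pool.Agent.H99.KG.THB.num1 hC hA1' hA2' hlog hs hsc (p := 0) (by
      have hs1 : s ≤ 1 := by
        refine hsc.trans ?_
        rw [div_le_iff₀ (by positivity)]
        nlinarith
      have : 0 ≤ l := Real.log_nonneg (by rw [le_div_iff₀ hs]; linarith)
      linarith)).1, (Pool.Agent.H99.KG.THB.num1 hC hA1' hA2' hlog hs hsc (p := 0) (by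
      have hs1 : s ≤ 1 := by
        refine hsc.trans ?_
        rw [div_le_iff₀ (by positivity)]
        nlinarith
      have : 0 ≤ l := Real.log_nonneg (by rw [le_div_iff₀ hs]; linarith)
      linarith)).2.1⟩
  obtain ⟨hs2, hl0⟩ := hsmall
  set p := ⌈10 * (A1 + l)⌉₊ with hp
  have hpge : 10 * (A1 + l) ≤ (p:ℝ) := Nat.le_ceil _
  have hple : (p:ℝ) ≤ 10 * (A1 + l) + 1 := (Nat.ceil_lt_add_one (by positivity)).le
  have hp1' : 1 ≤ p := by
    have : (1:ℝ) ≤ p := by linarith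
    exact_mod_cast this
  refine ⟨p, hp1', ?_⟩
  obtain ⟨-, -, hsm⟩ := Pool.Agent.H99.KG.THB.num1 hC hA1' hA2' hlog hs hsc hple
  -- the matrices
  have hPP : ∀ θ, PP (pw U s θ) s := fun θ => hb1 _ (t + s) s (hp1 s θ hs.le) hs (by linarith)
  have hPSD : ∀ θ, (cm b (pw U s θ)).PosSemidef ∧
      ((1 / s) • (1 : Matrix ι ι ℝ) - cm b (pw U s θ)).PosSemidef := fun θ =>
    ⟨(hb6 _ s (hPP θ) ι b).1, (hb6 _ s (hPP θ) ι b).2 _ (hb5 _ s (hPP θ))⟩
  have hF0 : ∀ θ, 0 ≤ FP p (cm b (pw U s θ)) := fun θ => (hFPI ι _ (hPSD θ).1 p hp1').1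
  have hF1 : ∀ θ, FP p (cm b (pw U s θ)) ≤ N / s := by
    intro θ
    have h := (hFPI ι _ (hPSD θ).1 p hp1').2.2.1 (1 / s) (by positivity) (hPSD θ).2
    refine h.trans ?_
    rw [hcard]
    have h1 : (1 / s / (1 + 1 / s)) ^ p ≤ 1 := by
      apply pow_le_one₀ (by positivity)
      rw [div_le_one (by positivity)]
      linarith
    have h2 : 1 / s * (1 / s / (1 + 1 / s)) ^ p ≤ 1 / s * 1 :=
      mul_le_mul_of_nonneg_left h1 (by positivity)
    calc 1 / s * (1 / s / (1 + 1 / s)) ^ p * N ≤ 1 / s * 1 * N :=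
          mul_le_mul_of_nonneg_right h2 hN0
      _ = N / s := by ring
  have hF00 : FP p (cm b U) ≤ (1 / 2) ^ p * N := by
    have h := (hFPI ι _ (hb6 U t hU ι b).1 p hp1').2.2.1 1 (by norm_num)
      ((hb6 U t hU ι b).2 1 hcov)
    rw [hcard] at h
    norm_num at h
    norm_num
    exact h
  -- the trace potential
  have htr := hTRP E U t hU ι b s (fun r => C * (r + Real.negMulLog r + r * A2))
    (fun r => C * (Real.log (1 / r) + A2)) hs
    (by
      apply Continuous.continuousOn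
      exact continuous_const.mul ((continuous_id.add Real.continuous_negMulLog).add
        (continuous_id.mul continuous_const)))
    (by simp [Real.negMulLog])
    (by
      intro r hr
      refine ⟨?_, ?_, ?_⟩
      · have h1 := Real.hasDerivAt_negMulLog hr.1.ne'
        have h2 := (((hasDerivAt_id r).add h1).add ((hasDerivAt_id r).mul_const A2)).const_mul C
        refine h2.congr_deriv ?_
        rw [one_div, Real.log_inv]
        ring
      · have h1 : 0 ≤ Real.log (1 / r) := by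
          apply Real.log_nonneg
          rw [le_div_iff₀ hr.1]
          linarith [hr.2]
        have : 0 ≤ C := by linarith
        positivity
      · exact hTK E r hr.1 (by linarith [hr.2]))
    p hp1' s ⟨hs.le, le_rfl⟩
  have hEF : EX U s (fun θ => FP p (cm b (pw U s θ))) ≤
      (N * (1 / 2) ^ p + N * (1 / 3) ^ p) * Real.exp (p / 100) := by
    rw [hcard] at htr
    have h1 : 0 ≤ (N:ℝ) * (1 / 3) ^ p := by positivity
    have h2 : Real.exp (9 / 2 * p * (p + 1) * (C * (s + Real.negMulLog s + s * A2))) ≤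
        Real.exp (p / 100) := by
      apply Real.exp_le_exp.2
      have h3 : 9 / 2 * (p:ℝ) * (p + 1) * (C * (s + Real.negMulLog s + s * A2)) =
        p * (9 / 2 * (p + 1) * (C * (s + Real.negMulLog s + s * A2))) := by ring
      rw [h3, show (p:ℝ) / 100 = p * (1 / 100) by ring]
      exact mul_le_mul_of_nonneg_left hsm (Nat.cast_nonneg p)
    have h4 : FP p (cm b U) + N * (1 / 3) ^ p ≤ N * (1 / 2) ^ p + N * (1 / 3) ^ p := by
      linarith
    have h5 : (FP p (cm b U) + N * (1 / 3) ^ p) *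
        Real.exp (9 / 2 * p * (p + 1) * (C * (s + Real.negMulLog s + s * A2))) ≤
        (N * (1 / 2) ^ p + N * (1 / 3) ^ p) * Real.exp (p / 100) :=
      mul_le_mul h4 h2 (Real.exp_nonneg _) (by positivity)
    linarith
  -- comparison
  obtain ⟨-, he2, he3, he4, he5, -, -⟩ := hBAY E U t hU s hs.le
  have hGC : GC (fun θ => FP p (cm b (pw U s θ))) :=
    (hr6 (fun s θ => FP p (cm b (pw U s θ))) ((hFPB E U t hU ι b p hp1').1) s hs).1
  set M := Real.sqrt ((4 / 3) ^ p * (N / s)) with hM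
  have hpt : ∀ θ, (3 + (4 / 3) ^ p * FP p (cm b (pw U s θ))) ^ ((3:ℝ) / 2) ≤
      7.35 + (1.42 * M * (4 / 3) ^ p) * FP p (cm b (pw U s θ)) := by
    intro θ
    have h1 : 0 ≤ (4 / 3 : ℝ) ^ p * FP p (cm b (pw U s θ)) :=
      mul_nonneg (by positivity) (hF0 θ)
    have h2 : Real.sqrt ((4 / 3 : ℝ) ^ p * FP p (cm b (pw U s θ))) ≤ M :=
      Real.sqrt_le_sqrt (mul_le_mul_of_nonneg_left (hF1 θ) (by positivity))
    have h3 := Pool.Agent.H99.KG.THB.num2 h1 h2
    refine h3.trans (le_of_eq ?_)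
    ring
  have hGC2 : GC (fun θ => 7.35 + (1.42 * M * (4 / 3) ^ p) * FP p (cm b (pw U s θ))) :=
    GC.add (GC.const _) (GC.mul (GC.const _) hGC)
  have hGC1 : GC (fun θ => (3 + (4 / 3) ^ p * FP p (cm b (pw U s θ))) ^ ((3:ℝ) / 2)) := by
    refine ⟨?_, Gr.of_le hGC2.2 ?_⟩
    · apply Continuous.rpow_const
      · exact continuous_const.add (continuous_const.mul hGC.1)
      · intro x
        right
        norm_num
    · intro θ
      have h1 : 0 ≤ (4 / 3 : ℝ) ^ p * FP p (cm b (pw U s θ)) :=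
        mul_nonneg (by positivity) (hF0 θ)
      rw [abs_of_nonneg (Real.rpow_nonneg (by linarith) _)]
      exact (hpt θ).trans (le_abs_self _)
  have hmono := he5 _ _ hGC1 hGC2 hpt
  have hcomp : EX U s (fun θ => 7.35 + (1.42 * M * (4 / 3) ^ p) * FP p (cm b (pw U s θ))) =
      7.35 + (1.42 * M * (4 / 3) ^ p) * EX U s (fun θ => FP p (cm b (pw U s θ))) := by
    rw [he2 (fun _ => 7.35) (fun θ => (1.42 * M * (4 / 3) ^ p) * FP p (cm b (pw U s θ)))
      (GC.const _) (GC.mul (GC.const _) hGC), he4, he3]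
  rw [hcomp] at hmono
  have hNA : (N:ℝ) ≤ Real.exp A1 := by
    rw [hA1]
    unfold L1
    rw [Real.exp_log (by positivity)]
    linarith
  have hfin := Pool.Agent.H99.KG.THB.num3 hA1' hs hl hl0 hN0 hNA p hpge
  have h6 : (1.42 * M * (4 / 3) ^ p) * EX U s (fun θ => FP p (cm b (pw U s θ))) ≤
      1.42 * Real.sqrt ((4 / 3) ^ p * (N / s)) * ((4 / 3) ^ p *
      ((N * (1 / 2) ^ p + N * (1 / 3) ^ p) * Real.exp (p / 100))) := by
    rw [← hM, mul_assoc]
    apply mul_le_mul_of_nonneg_left _ (by positivity)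
    exact mul_le_mul_of_nonneg_left hEF (by positivity)
  have h7 : (7.35:ℝ) + 2.6 ≤ 10 := by norm_num
  linarith

end Pool.Agent.H73.KG
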